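import Pool.Agent.Y351.ExpIP.TypeI

/-!
# MP_952e1b_co, type I: a partition of the natural numbers into three cells none of which is an
exponential IP set of type I
-/

set_option autoImplicit false

namespace Pool.Agent.Results.MP_952e1b_co.TypeOneThreeCells

/-- The sets `FE^I_n` of the sequence `x 0 < x 1 < x 2 < ...`. -/
def FE (x : ℕ → ℕ) : ℕ → Set ℕ
  | 0 => {x 0}
  | n + 1 => {z | ∃ y ∈ FE x n, z = y ^ x (n + 1)} ∪ FE x n ∪ {x (n + 1)}

/-- `C` is an exponential IP set of type I. -/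
def IsExponentialIP (C : Set ℕ) : Prop := ∃ x : ℕ → ℕ, StrictMono x ∧ (⋃ n, FE x n) ⊆ C

theorem result : ∃ c : ℕ → Fin 3, ∀ k : Fin 3, ¬ IsExponentialIP {n | c n = k} := by
  refine ⟨Pool.Agent.Y351.ExpIP.col, ?_⟩
  rintro k ⟨x, hx, hsub⟩
  have h2 : 2 ≤ x 2 := by
    have h01 : x 0 < x 1 := hx (by norm_num)
    have h12 : x 1 < x 2 := hx (by norm_num)
    omega
  have h23 : x 2 < x 3 := hx (by norm_num)
  have m2 : x 2 ∈ FE x 2 := Or.inr rfl
  have m3 : x 3 ∈ FE x 3 := Or.inr rfl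
  have m4 : x 2 ^ x 3 ∈ FE x 3 := Or.inl (Or.inl ⟨x 2, m2, rfl⟩)
  have c3 := hsub (Set.mem_iUnion.mpr ⟨3, m3⟩)
  have c4 := hsub (Set.mem_iUnion.mpr ⟨3, m4⟩)
  exact Pool.Agent.Y351.ExpIP.col_pow_ne h2 h23 (Eq.trans c4 (Eq.symm c3))

end Pool.Agent.Results.MP_952e1b_co.TypeOneThreeCells
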