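import Pool.Agent.Y351.ExpIP.TypeII

/-!
# MP_952e1b_co, type II: in every finite partition of the natural numbers some cell is an
exponential IP set of type II
-/

set_option autoImplicit false

namespace Pool.Agent.Results.MP_952e1b_co.TypeTwoEveryPartition

/-- The sets `FE^II_n` of the sequence `x 0 < x 1 < x 2 < ...`. -/
def FE (x : ℕ → ℕ) : ℕ → Set ℕ
  | 0 => {x 0}
  | n + 1 => {z | ∃ y ∈ FE x n, z = x (n + 1) ^ y} ∪ FE x n ∪ {x (n + 1)}

/-- `C` is an exponential IP set of type II. -/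
def IsExponentialIP (C : Set ℕ) : Prop := ∃ x : ℕ → ℕ, StrictMono x ∧ (⋃ n, FE x n) ⊆ C

theorem result (r : ℕ) (c : ℕ → Fin r) : ∃ k : Fin r, IsExponentialIP {n | c n = k} := by
  obtain ⟨k, t, E, ht, hE, h0, hs⟩ := Pool.Agent.Y351.ExpIP.exists_seq (fun s => c (2 ^ s))
  refine ⟨k, fun n => 2 ^ t n, fun a b hab => Nat.pow_lt_pow_right (by norm_num) (ht hab), ?_⟩
  have key : ∀ n, FE (fun n => 2 ^ t n) n ⊆ (fun s => 2 ^ s) '' (E n : Set ℕ) := by
    intro n
    induction n with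
    | zero =>
      intro z hz
      have hz' : z = 2 ^ t 0 := hz
      exact ⟨t 0, h0, hz'.symm⟩
    | succ n ih =>
      intro z hz
      rcases hz with (⟨y, hy, rfl⟩ | hz) | hz
      · obtain ⟨s, hs1, rfl⟩ := ih hy
        exact ⟨t (n + 1) * 2 ^ s, (hs n).2.2 s hs1, by simp [pow_mul]⟩
      · obtain ⟨s, hs1, rfl⟩ := ih hz
        exact ⟨s, (hs n).1 hs1, rfl⟩
      · have hz' : z = 2 ^ t (n + 1) := hz
        exact ⟨t (n + 1), (hs n).2.1, hz'.symm⟩
  intro z hz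
  obtain ⟨n, hn⟩ := Set.mem_iUnion.mp hz
  obtain ⟨s, hs1, rfl⟩ := key n hn
  exact hE n s hs1

end Pool.Agent.Results.MP_952e1b_co.TypeTwoEveryPartition
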